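import Pool.Agent.HP42.MC.SphereMain
import Pool.Agent.HP42.MC.CycMain
import Pool.Agent.HP42.MC.Exist

/-!
# Moment-curve systems of parameters and the Lefschetz property, in all characteristics

The definitions are in `Pool/Agent/HP42/MC/Defs.lean` (and `joinBd` in `PL.lean`): face ideals, the
moment-curve systems and their Artinian reductions (`momentIdeal`), simplicial cycles `μ` with
coefficients in the field, their degree maps `φ : A^d → K` (`IsDegreeMap`; the value at the monomial
of a facet `F` is `μ F / det (p_v)_{v ∈ F}`), the ideal `annIdeal φ` which defines the Gorenstein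
algebra `B(μ)`, the Lefschetz property, and piecewise linear spheres.

* Class (a), and hence (b) and (c): over EVERY infinite field of characteristic `p > 0` there are
  parameters for which the piecewise linear sphere of dimension `p ^ 2 - 1` with `p ^ 2 + 2`
  vertices that is the join of the boundaries of a triangle and of a simplex does not have the
  Lefschetz property, as `l ^ (p ^ 2) = 0` for all linear forms `l`.
* Class (c): over EVERY field, every cycle has exactly one degree map, and for EVERY choice of
  `d + 5` distinct nonzero parameters there is a cycle of dimension `d - 1` without the Lefschetz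
  property if `d ≥ 3`, or if `d = 2` and the characteristic is two. In the other cases, `d = 1` and
  `d = 2` in characteristic not two, all cycles have it.

Ideas. (a): the variables become linear forms `X - ρ_v Z` and `Z` in a quotient of a polynomial ring
in two variables where `X Z (X - Z) = 0` and `∏ (X - ρ_v Z) = 0`; if the products of the `ρ_v` and
of the `1 - ρ_v` are one this gives `X ^ q = Z ^ q = 0`, and the Frobenius map gives the rest. Such
`ρ_v` are found in orbits of `r ↦ 1 / (1 - r)`; in characteristic three in quadruples. (c): every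
form of degree `d` in `n - d` variables is the dual generator of `B(μ)` for a cycle `μ` on `n`
vertices (depending on the parameters); take a form with vanishing Hessian.
-/

set_option autoImplicit false

namespace Pool.Agent.Results.MP_487945_co.AllCharacteristics

open Pool.Agent.HP42.MC MvPolynomial

theorem result :
    (∀ (K : Type) [Field K] [Infinite K] (p : ℕ) [Fact p.Prime] [CharP K p],
      ∃ (T : Finset (Fin (p ^ 2 + 2))) (t : Fin (p ^ 2 + 2) → K), T.card = 3 ∧
        IsPLSphere (p ^ 2 - 1) (joinBd T) ∧ Function.Injective t ∧ (∀ v, t v ≠ 0) ∧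
        (∀ l : MvPolynomial (Fin (p ^ 2 + 2)) K, l.IsHomogeneous 1 →
          l ^ p ^ 2 ∈ momentIdeal (p ^ 2) (joinBd T) t) ∧
        ¬ Lefschetz (p ^ 2) (momentIdeal (p ^ 2) (joinBd T) t)) ∧
    (∀ (K : Type) [Field K] (V : Type) [Fintype V] [LinearOrder V] (d : ℕ), 1 ≤ d →
      ∀ t : V → K, Function.Injective t → (∀ v, t v ≠ 0) → ∀ μ : Finset V → K, IsCycle d μ →
        ∃! φ, IsDegreeMap d t μ φ) ∧
    (∀ (K : Type) [Field K] (d : ℕ), 3 ≤ d ∨ (d = 2 ∧ (2 : K) = 0) →
      ∀ t : Fin (d + 5) → K, Function.Injective t → (∀ v, t v ≠ 0) →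
        ∃ μ : Finset (Fin (d + 5)) → K, IsCycle d μ ∧
          ∀ φ, IsDegreeMap d t μ φ → ¬ Lefschetz d (annIdeal φ)) ∧
    (∀ (K : Type) [Field K] (d : ℕ), d = 1 ∨ (d = 2 ∧ (2 : K) ≠ 0) →
      ∀ (V : Type) [Fintype V] [LinearOrder V] (t : V → K), Function.Injective t →
        (∀ v, t v ≠ 0) → ∀ μ : Finset V → K, IsCycle d μ →
          ∀ φ, IsDegreeMap d t μ φ → Lefschetz d (annIdeal φ)) := by
  refine ⟨?_, ?_, ?_, ?_⟩
  · intro K _ _ p hp _
    obtain ⟨T, t, hT, h1, h2, h3⟩ := sphere_main K p
    have hp2 : 4 ≤ p ^ 2 := by nlinarith [hp.out.two_le]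
    have hTc : (Tᶜ).card = p ^ 2 - 1 := by
      rw [Finset.card_compl, Fintype.card_fin, hT]
      omega
    refine ⟨T, t, hT, ?_, h1, h2, h3, ?_⟩
    · refine joinBd_sphere T (Finset.card_pos.1 (by omega)) _ ?_ (by omega)
      rw [Fintype.card_fin]
      omega
    · apply not_lefschetz_of_pow _ _ _ _ h3
      refine ⟨fun h => ?_, fun h => ?_⟩
      · rw [Finset.subset_empty.1 h, Finset.card_empty] at hT
        omega
      · rw [Finset.subset_empty.1 h, Finset.card_empty] at hTc
        omega
  · intro K _ V _ _ d hd t ht ht0 μ hμ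
    obtain ⟨φ, hφ⟩ := degree_exists hd ht ht0 hμ
    exact ⟨φ, hφ, fun φ' hφ' => degree_unique ht ht0 hφ' hφ⟩
  · rintro K _ d (hd | ⟨rfl, h2⟩) t ht ht0
    · obtain ⟨μ, h1, -, h3⟩ := cyc_main d hd t ht ht0
      exact ⟨μ, h1, h3⟩
    · obtain ⟨μ, h1, -, h3⟩ := cyc_two h2 t ht ht0
      exact ⟨μ, h1, h3⟩
  · rintro K _ d (rfl | ⟨rfl, h2⟩) V _ _ t ht ht0 μ hμ φ hφ
    · exact pos_one ht ht0 hμ hφ
    · exact pos_two h2 ht ht0 hμ hφ

end Pool.Agent.Results.MP_487945_co.AllCharacteristics
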